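import Mathlib
import Pool.Agent.H485R3.GTC.Direct
import Pool.Agent.W548.Tt.Defs
import Pool.Agent.TH170.LV.Direct

/-!
# Divisorial Galois coniveau over finite fields in small degree and level
-/

set_option autoImplicit false
set_option linter.unusedSectionVars false

namespace Pool.Agent.Q43.GT

open NumberField NumberField.IsCMField Pool.Agent.H485R3 Pool.Agent.H925R2 Pool.Agent.H485R3.GTC
  Pool.Agent.H485R3.Exact Pool.Agent.H204R3.CM Pool.Agent.W548.Tt Pool.Agent.TH170.LV Polynomial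

theorem iso (p : ℕ) [Fact p.Prime] : Nonempty (PadicAlgCl p ≃+* ℂ) := by
  open Cardinal in
  have h0 : #ℚ_[p] ≤ continuum := by
    have h1 : #(CauSeq ℚ (padicNorm p)) ≤ continuum := by
      have h2 : Function.Injective (fun f : CauSeq ℚ (padicNorm p) => (f : ℕ → ℚ)) := by
        intro f g h
        exact Subtype.ext h
      calc #(CauSeq ℚ (padicNorm p)) ≤ #(ℕ → ℚ) := mk_le_of_injective h2
        _ = continuum := by simp
    refine le_trans ?_ h1
    exact mk_le_of_surjective (f := fun f : CauSeq ℚ (padicNorm p) =>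
      (Quotient.mk _ f : ℚ_[p])) Quotient.mk_surjective
  have h1 : #(AlgebraicClosure ℚ_[p]) ≤ continuum := by
    refine (Algebra.IsAlgebraic.cardinalMk_le_max ℚ_[p] (AlgebraicClosure ℚ_[p])).trans ?_
    exact max_le h0 aleph0_le_continuum
  have h2 : continuum ≤ #(AlgebraicClosure ℚ_[p]) := by
    refine (continuum_le_cardinal_of_nontriviallyNormedField ℚ_[p]).trans ?_
    exact mk_le_of_injective (algebraMap ℚ_[p] (AlgebraicClosure ℚ_[p])).injective
  have h3 : #(AlgebraicClosure ℚ_[p]) = #ℂ := by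
    rw [Cardinal.mk_complex]
    exact le_antisymm h1 h2
  obtain ⟨e⟩ := Cardinal.eq.1 h3
  obtain ⟨f⟩ := IsAlgClosed.ringEquiv_of_equiv_of_charZero (K := AlgebraicClosure ℚ_[p]) (L := ℂ)
    (aleph0_lt_continuum.trans_le h2) ⟨e⟩
  exact ⟨f⟩

variable {I : Type} {K : I → Type} [∀ i, Field (K i)] [∀ i, NumberField (K i)]
    [∀ i, IsCMField (K i)] {p : ℕ} [Fact p.Prime]

/-- The family of CM types that corresponds to a family of `p`-adic types. -/
def toC (ν : PadicAlgCl p ≃+* ℂ) (Φ : ∀ i, Set (K i →+* PadicAlgCl p)) (i : I) :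
    Set (K i →+* ℂ) :=
  {φ | ((ν.symm : ℂ ≃+* PadicAlgCl p) : ℂ →+* PadicAlgCl p).comp φ ∈ Φ i}

theorem toC_isCMType (ν : PadicAlgCl p ≃+* ℂ) {Φ : ∀ i, Set (K i →+* PadicAlgCl p)}
    (hΦ : ∀ i, IsPadicType p (Φ i)) (i : I) : IsCMType (toC ν Φ i) := by
  intro φ
  have h : ((ν.symm : ℂ ≃+* PadicAlgCl p) : ℂ →+* PadicAlgCl p).comp
      (ComplexEmbedding.conjugate φ) =
      cbar (((ν.symm : ℂ ≃+* PadicAlgCl p) : ℂ →+* PadicAlgCl p).comp φ) := by
    ext x
    change ν.symm (starRingEnd ℂ (φ x)) = ν.symm (φ (complexConj (K i) x))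
    rw [complexEmbedding_complexConj]
  change _ ∈ Φ i ↔ ¬ (_ ∈ Φ i)
  rw [h]
  exact hΦ i _

/-- For the Frobenius modules `V i` with eigenvalues conjugate to `π i`, over the field with `q`
elements, the Galois coniveau of level `ν` of the multilinear forms in `n` variables is divisorial. -/
def DivisorialIn {I : Type} {K : I → Type} [∀ i, Field (K i)] (π : ∀ i, K i) (q n ν : ℕ) : Prop :=
  ∀ {Ω : Type} [Field Ω] [IsAlgClosed Ω] [CharZero Ω] (V : I → Type) [∀ i, AddCommGroup (V i)]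
    [∀ i, Module Ω (V i)] [∀ i, FiniteDimensional Ω (V i)] (F : ∀ i, V i →ₗ[Ω] V i),
    (∀ i, Submodule.span Ω {v : V i | ∃ σ : K i →+* Ω, F i v = σ (π i) • v} = ⊤) →
    ∀ t : Fin n → I, galoisConiveau V F (q : Ω) ν t ≤
      Submodule.span Ω {ψ | IsDivisorMultiple V F (q : Ω) ν t ψ}

/-- The numbers `π i` are ordinary Weil numbers of weight one for the finite field with `p ^ a`
elements, and units exactly at the `p`-adic embeddings in `Φ i`. -/
def IsOrdinary (p : ℕ) [Fact p.Prime] {I : Type} {K : I → Type} [∀ i, Field (K i)]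
    (Φ : ∀ i, Set (K i →+* PadicAlgCl p)) (a : ℕ) (π : ∀ i, K i) : Prop :=
  0 < a ∧ (∀ i, IsIntegral ℤ (π i) ∧ ∀ φ : K i →+* ℂ, ‖φ (π i)‖ ^ 2 = (p : ℝ) ^ a) ∧
    ∀ i (τ : K i →+* PadicAlgCl p), ‖τ (π i)‖ = 1 ↔ τ ∈ Φ i

/-- The generalized Tate conjecture by divisors, in degrees at most `k` and levels at most `L`, for
all ordinary Weil numbers of weight one of the types `Φ`. -/
def GTCUpTo (p : ℕ) [Fact p.Prime] {I : Type} {K : I → Type} [∀ i, Field (K i)]
    (Φ : ∀ i, Set (K i →+* PadicAlgCl p)) (k L : ℕ) : Prop :=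
  ∀ (a : ℕ) (π : ∀ i, K i), IsOrdinary p Φ a π → ∀ n ≤ k, ∀ ν, n ≤ 2 * ν + L →
    DivisorialIn π (p ^ a) n ν

/-- The involution of the letters. -/
noncomputable def invL (y : Σ i, (K i →+* AlgebraicClosure ℚ)) : Σ i, (K i →+* AlgebraicClosure ℚ) :=
  ⟨y.1, cbar y.2⟩

theorem invL_invL (y : Σ i, (K i →+* AlgebraicClosure ℚ)) : invL (invL y) = y := by
  obtain ⟨i, φ⟩ := y
  simp only [invL, cbar_cbar]

theorem invL_ne (y : Σ i, (K i →+* AlgebraicClosure ℚ)) : invL y ≠ y := by
  obtain ⟨i, φ⟩ := y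
  intro hy
  simp only [invL, Sigma.mk.injEq, heq_eq_eq, true_and] at hy
  exact cbar_ne φ hy

open Classical in
/-- A word all of whose translates have level at most `n - 2 ν` has `ν` pairs of conjugate letters. -/
theorem pairs {Φ : ∀ i, Set (K i →+* ℂ)} (hΦ : ∀ i, IsCMType (Φ i)) {k L : ℕ}
    (hlf : LevelFree Φ k L) (j0 : AlgebraicClosure ℚ →+* ℂ) {n ν : ℕ} (hnk : n ≤ k)
    (hnL : n ≤ 2 * ν + L) (A : Fin n → Σ i, (K i →+* AlgebraicClosure ℚ))
    (hA : ∀ σ : ℂ ≃+* ℂ, ν ≤ (Finset.univ.filter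
      (fun l => (σ : ℂ →+* ℂ).comp (j0.comp (A l).2) ∉ Φ (A l).1)).card) :
    ∃ τ : Equiv.Perm (Fin n), (∀ l, τ (τ l) = l) ∧ (∀ l, τ l ≠ l → A (τ l) = invL (A l)) ∧
      2 * ν ≤ Nat.card {l // τ l ≠ l} := by
  obtain ⟨τ, h1, h2, h3⟩ := exists_max_matching invL invL_invL A
  refine ⟨τ, h1, h2, ?_⟩
  let sg : (ℂ ≃+* ℂ) → Fin n → ℤ := fun σ l =>
    if (σ : ℂ →+* ℂ).comp (j0.comp (A l).2) ∈ Φ (A l).1 then (1 : ℤ) else -1
  have hconj : ∀ (σ : ℂ ≃+* ℂ) (l : Fin n),
      ((σ.trans Complex.conjAe.toRingEquiv : ℂ ≃+* ℂ) : ℂ →+* ℂ).comp (j0.comp (A l).2) =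
      ComplexEmbedding.conjugate ((σ : ℂ →+* ℂ).comp (j0.comp (A l).2)) := fun _ _ => rfl
  have hsum : ∀ σ : ℂ ≃+* ℂ, |∑ l, sg σ l| ≤ (n : ℤ) - 2 * ν := by
    intro σ
    have e1 : ∀ σ : ℂ ≃+* ℂ, ∑ l, sg σ l = (n : ℤ) - 2 * ((Finset.univ.filter
        (fun l => (σ : ℂ →+* ℂ).comp (j0.comp (A l).2) ∉ Φ (A l).1)).card : ℤ) := by
      intro σ
      have e2 : ∀ l, sg σ l = 1 - 2 * (if (σ : ℂ →+* ℂ).comp (j0.comp (A l).2) ∉ Φ (A l).1
          then (1 : ℤ) else 0) := by
        intro l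
        by_cases hl : (σ : ℂ →+* ℂ).comp (j0.comp (A l).2) ∈ Φ (A l).1
        · simp only [sg, hl, if_true, not_true, if_false]
          norm_num
        · simp only [sg, hl, if_true, not_false_eq_true, if_false]
          norm_num
      rw [Finset.sum_congr rfl fun l _ => e2 l, Finset.sum_sub_distrib, ← Finset.mul_sum,
        Finset.sum_boole]
      simp
    have e3 : ∑ l, sg (σ.trans Complex.conjAe.toRingEquiv) l = - ∑ l, sg σ l := by
      rw [← Finset.sum_neg_distrib]
      refine Finset.sum_congr rfl fun l _ => ?_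
      have e4 := hΦ (A l).1 ((σ : ℂ →+* ℂ).comp (j0.comp (A l).2))
      simp only [sg]
      rw [hconj]
      by_cases hl : (σ : ℂ →+* ℂ).comp (j0.comp (A l).2) ∈ Φ (A l).1
      · rw [if_pos hl, if_neg (e4.1 hl)]
      · rw [if_neg hl, if_pos (by
          by_contra hcon
          exact hl (e4.2 hcon))]
        norm_num
    rw [abs_le]
    have a1 := hA σ
    have a2 := hA (σ.trans Complex.conjAe.toRingEquiv)
    rw [e1 (σ.trans Complex.conjAe.toRingEquiv)] at e3
    have a3 := e1 σ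
    zify at a1 a2
    constructor <;> linarith
  have hn2 : 2 * ν ≤ n := by
    have a1 := (abs_nonneg _).trans (hsum (RingEquiv.refl ℂ))
    omega
  by_contra hcon
  push Not at hcon
  have hcard : Fintype.card {l // τ l = l} + Nat.card {l // τ l ≠ l} = n := by
    rw [Nat.card_eq_fintype_card, Fintype.card_subtype, Fintype.card_subtype,
      Finset.card_filter_add_card_filter_not, Finset.card_univ, Fintype.card_fin]
  have hpar : ∃ a, n = 2 * a + Fintype.card {l // τ l = l} := by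
    have h4 := prod_matching τ h1 (fun _ => 2)
    rw [Finset.prod_const, Finset.prod_const, Finset.prod_const, Finset.card_univ,
      Fintype.card_fin] at h4
    refine ⟨(Finset.univ.filter fun k => k < τ k).card, ?_⟩
    rw [Fintype.card_subtype]
    have h5 : (2 : ℕ) ^ n = 2 ^ (2 * (Finset.univ.filter fun k => k < τ k).card +
        (Finset.univ.filter fun k => τ k = k).card) := by
      rw [h4, pow_add, pow_mul]
      norm_num
    exact Nat.pow_right_injective le_rfl h5
  obtain ⟨a, ha⟩ := hpar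
  set n' := Fintype.card {l // τ l = l} with hn'
  let s : Fin n' → {l // τ l = l} := (Fintype.equivFin {l // τ l = l}).symm
  have hB : n - 2 * ν + 2 ≤ n' := by omega
  obtain ⟨σ, hσ⟩ := hlf n' (by omega) (n - 2 * ν) (by omega) hB
    (fun l => ⟨(A (s l)).1, j0.comp (A (s l)).2⟩) (by
      intro l l' h
      have h5 : A (s l) = invL (A (s l')) := by
        have h6 : ∀ y y' : Σ i, (K i →+* AlgebraicClosure ℚ),
            (⟨y.1, j0.comp y.2⟩ : Σ i, (K i →+* ℂ)) =
              ⟨y'.1, ComplexEmbedding.conjugate (j0.comp y'.2)⟩ → y = invL y' := by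
          rintro ⟨i, φ⟩ ⟨i', φ'⟩ h
          simp only [Sigma.mk.injEq] at h
          obtain ⟨rfl, h⟩ := h
          have h' := eq_of_heq h
          have h2 : φ = cbar φ' := by
            ext x
            apply j0.injective
            have h3 := RingHom.congr_fun h' x
            change j0 (φ x) = starRingEnd ℂ (j0 (φ' x)) at h3
            rw [h3]
            change _ = (j0.comp φ') (complexConj (K i) x)
            rw [complexEmbedding_complexConj]
            rfl
          rw [h2]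
          rfl
        exact h6 _ _ h
      by_cases hll : s l = s l'
      · rw [hll] at h5
        exact invL_ne _ h5.symm
      · refine h3 (s l') (s l) (fun hc => hll (Subtype.ext hc.symm)) (s l').2 (s l).2 h5)
  have hfix : ∑ l, sg σ l = ∑ l : Fin n', sg σ (s l) := by
    have h5 : ∑ l with τ l ≠ l, sg σ l = 0 := by
      have h6 : ∑ l with τ l ≠ l, sg σ l = ∑ l with τ l ≠ l, sg σ (τ l) := by
        refine Finset.sum_bij' (fun l _ => τ l) (fun l _ => τ l) ?_ ?_ (fun l _ => h1 l)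
          (fun l _ => h1 l) (fun l _ => by rw [h1])
        · intro l hl
          simp only [Finset.mem_filter, Finset.mem_univ, true_and] at hl ⊢
          rw [h1]
          exact fun hc => hl hc.symm
        · intro l hl
          simp only [Finset.mem_filter, Finset.mem_univ, true_and] at hl ⊢
          rw [h1]
          exact fun hc => hl hc.symm
      have h7 : ∑ l with τ l ≠ l, sg σ (τ l) = - ∑ l with τ l ≠ l, sg σ l := by
        rw [← Finset.sum_neg_distrib]
        refine Finset.sum_congr rfl fun l hl => ?_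
        have h8 := h2 l (Finset.mem_filter.1 hl).2
        have key : ∀ y y' : Σ i, (K i →+* AlgebraicClosure ℚ), y' = invL y →
            ((σ : ℂ →+* ℂ).comp (j0.comp y'.2) ∈ Φ y'.1 ↔
              (σ : ℂ →+* ℂ).comp (j0.comp y.2) ∉ Φ y.1) := by
          rintro ⟨i, φ⟩ _ rfl
          have h9 : (σ : ℂ →+* ℂ).comp (j0.comp (cbar φ)) =
              ComplexEmbedding.conjugate ((σ : ℂ →+* ℂ).comp (j0.comp φ)) := by
            ext x
            change ((σ : ℂ →+* ℂ).comp (j0.comp φ)) (complexConj (K i) x) = _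
            rw [complexEmbedding_complexConj]
            rfl
          change (σ : ℂ →+* ℂ).comp (j0.comp (cbar φ)) ∈ Φ i ↔ _
          rw [h9]
          have h10 := hΦ i ((σ : ℂ →+* ℂ).comp (j0.comp φ))
          tauto
        have h11 := key _ _ h8
        simp only [sg]
        by_cases hl : (σ : ℂ →+* ℂ).comp (j0.comp (A l).2) ∈ Φ (A l).1
        · rw [if_pos hl, if_neg (fun hc => h11.1 hc hl)]
        · rw [if_neg hl, if_pos (h11.2 hl)]
          norm_num
      rw [h7] at h6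
      linarith
    rw [← Finset.sum_filter_add_sum_filter_not Finset.univ (fun l => τ l = l) (sg σ), h5,
      add_zero]
    rw [Finset.sum_subtype (Finset.univ.filter fun l => τ l = l) (p := fun l => τ l = l)
      (by simp) (sg σ)]
    exact ((Fintype.equivFin {l // τ l = l}).symm.sum_comp (fun l => sg σ l)).symm
  have h12 : ((n - 2 * ν : ℕ) : ℤ) < |∑ l, sg σ l| := by
    rw [hfix]
    exact hσ
  have h13 := hsum σ
  rw [Nat.cast_sub hn2] at h12
  push_cast at h12
  linarith

/-- **The generalized Tate conjecture by divisors in small degree and level.** -/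
theorem gtc_of_levelFree (ν' : PadicAlgCl p ≃+* ℂ) {Φ : ∀ i, Set (K i →+* PadicAlgCl p)}
    (hΦ : ∀ i, IsPadicType p (Φ i)) {k L : ℕ} (hlf : LevelFree (toC ν' Φ) k L) :
    GTCUpTo p Φ k L := by
  classical
  rintro a π ⟨ha, hπ, hord⟩ n hnk ν hnL Ω _ _ _ V _ _ _ F hF t
  unfold galoisConiveau
  rw [Submodule.span_le]
  rintro φ ⟨lam, hlam, hφ⟩
  have hp : p.Prime := Fact.out
  set q : Ω := ((p ^ a : ℕ) : Ω) with hq
  have hq0 : q ≠ 0 := by
    rw [hq]
    exact_mod_cast (pow_pos hp.pos a).ne'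
  obtain ⟨hQ0, hQ1⟩ := norm_p_pow p a ha
  set Q : ℝ := ‖(p : PadicAlgCl p) ^ a‖ with hQ
  have hpa : ∀ i, π i * complexConj (K i) (π i) = (p : K i) ^ a := fun i =>
    mul_conj_eq p (π i) a (hπ i).2
  choose d b μ hμE hμ using fun i => exists_eigenbasis (F i)
    {y : Ω | ∃ σ : K i →+* Ω, y = σ (π i)} (by
      rw [← hF i]
      congr 1
      ext v
      constructor
      · rintro ⟨y, ⟨σ, rfl⟩, h⟩
        exact ⟨σ, h⟩
      · rintro ⟨σ, h⟩
        exact ⟨σ (π i), ⟨σ, rfl⟩, h⟩)
  let cp : (∀ k, Fin (d (t k))) → MultilinearMap Ω (fun k => V (t k)) Ω := fun J =>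
    (MultilinearMap.mkPiAlgebra Ω (Fin n) Ω).compLinearMap (fun k => (b (t k)).coord (J k))
  have hcp : ∀ J v, cp J v = ∏ k, (b (t k)).coord (J k) (v k) := by
    intro J v
    change (MultilinearMap.mkPiAlgebra Ω (Fin n) Ω) (fun k => (b (t k)).coord (J k) (v k)) = _
    rw [MultilinearMap.mkPiAlgebra_apply]
  have hexp : φ = ∑ J : (∀ k, Fin (d (t k))), φ (fun k => b (t k) (J k)) • cp J := by
    apply Module.Basis.ext_multilinear (fun k => b (t k))
    intro J
    rw [sum_apply, Finset.sum_eq_single J]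
    · rw [smul_apply, hcp]
      have h1 : ∏ k, (b (t k)).coord (J k) (b (t k) (J k)) = 1 := by
        apply Finset.prod_eq_one
        intro k _
        simp
      rw [h1, smul_eq_mul, mul_one]
    · intro J' _ hJ
      rw [smul_apply, hcp]
      obtain ⟨k, hk⟩ := Function.ne_iff.1 hJ
      have h1 : ∏ k, (b (t k)).coord (J' k) (b (t k) (J k)) = 0 := by
        apply Finset.prod_eq_zero (Finset.mem_univ k)
        rw [Module.Basis.coord_apply, Module.Basis.repr_self, Finsupp.single_apply,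
          if_neg (fun h => hk h.symm)]
      rw [h1, smul_zero]
    · intro h
      exact absurd (Finset.mem_univ J) h
  rw [SetLike.mem_coe, hexp]
  refine Submodule.sum_mem _ fun J _ => ?_
  by_cases h0 : φ (fun k => b (t k) (J k)) = 0
  · rw [h0, zero_smul]
    exact Submodule.zero_mem _
  refine Submodule.smul_mem _ _ (Submodule.subset_span ?_)
  have hprod : ∏ k, μ (t k) (J k) = lam := by
    have h1 := hφ (fun k => b (t k) (J k))
    have h2 : (fun k => F (t k) (b (t k) (J k))) =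
        fun k => (μ (t k) (J k)) • b (t k) (J k) := funext fun k => hμ (t k) (J k)
    rw [h2, MultilinearMap.map_smul_univ, smul_eq_mul] at h1
    exact mul_right_cancel₀ h0 h1
  -- lifting to the algebraic numbers
  have halg := isAlgebraic_closure
  let j : AlgebraicClosure ℚ →ₐ[ℚ] Ω := IsAlgClosed.lift
  have hρ : ∀ k, ∃ ρ : K (t k) →+* AlgebraicClosure ℚ, j (ρ (π (t k))) = μ (t k) (J k) := by
    intro k
    obtain ⟨σ, hσ⟩ := hμE (t k) (J k)
    obtain ⟨x, hx, hxy⟩ := exists_root_lift (minpoly.ne_zero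
      (Algebra.IsIntegral.isIntegral (R := ℚ) (π (t k)))) (IsAlgClosed.splits _) j (σ (π (t k)))
      (minpoly_root (π (t k)) σ)
    obtain ⟨ρ, rfl⟩ := root_minpoly (π (t k)) x hx
    exact ⟨ρ, hxy.trans hσ.symm⟩
  choose ρ hρ using hρ
  have hjq : j ((p : AlgebraicClosure ℚ) ^ a) = q := by
    rw [map_pow, map_natCast, hq, Nat.cast_pow]
  let j0 : AlgebraicClosure ℚ →ₐ[ℚ] ℂ := IsAlgClosed.lift
  let β : Fin n → AlgebraicClosure ℚ := fun k => ρ k (π (t k))
  have hβj : ∀ k, j (β k) = μ (t k) (J k) := hρ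
  -- the valuations
  have hval : ∀ (i : I) (τ : K i →+* PadicAlgCl p), ‖τ (π i)‖ = if τ ∉ Φ i then Q else 1 := by
    intro i τ
    by_cases hτ : τ ∈ Φ i
    · rw [if_neg (not_not.2 hτ), (hord i τ).2 hτ]
    · rw [if_pos hτ]
      have h1 : cbar τ ∈ Φ i := by
        by_contra h2
        exact hτ ((hΦ i τ).2 h2)
      have h2 := (hord i (cbar τ)).2 h1
      have h3 : ‖τ (π i)‖ * ‖cbar τ (π i)‖ = Q := by
        rw [cbar_apply, ← norm_mul, ← map_mul, hpa, map_pow, map_natCast]
      rw [h2, mul_one] at h3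
      exact h3
  have hout : ∀ σ : ℂ ≃+* ℂ, ν ≤ (Finset.univ.filter
      (fun l => (σ : ℂ →+* ℂ).comp ((j0 : AlgebraicClosure ℚ →+* ℂ).comp (ρ l)) ∉
        toC ν' Φ (t l))).card := by
    intro σ
    let e : AlgebraicClosure ℚ →+* PadicAlgCl p :=
      ((ν'.symm : ℂ ≃+* PadicAlgCl p) : ℂ →+* PadicAlgCl p).comp
        ((σ : ℂ →+* ℂ).comp (j0 : AlgebraicClosure ℚ →+* ℂ))
    have hPle : ∏ k, ‖e (β k)‖ ≤ Q ^ ν := by
      have h1 : j ((∏ k, β k) / ((p : AlgebraicClosure ℚ) ^ a) ^ ν) = lam / q ^ ν := by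
        rw [map_div₀, map_prod, map_pow, hjq, ← hprod, Finset.prod_congr rfl fun k _ => hβj k]
      rw [← h1] at hlam
      have h2 : IsIntegral ℤ ((∏ k, β k) / ((p : AlgebraicClosure ℚ) ^ a) ^ ν) :=
        (isIntegral_algHom_iff (j.restrictScalars ℤ) j.toRingHom.injective).1 hlam
      have h3 := norm_le_one_of_isIntegral p _ (h2.map e.toIntAlgHom)
      change ‖e _‖ ≤ 1 at h3
      rw [map_div₀, map_prod, map_pow, map_pow, map_natCast, norm_div, norm_pow, norm_prod,
        div_le_one (pow_pos hQ0 _)] at h3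
      exact h3
    have h4 : ∀ k, ‖e (β k)‖ = if (σ : ℂ →+* ℂ).comp ((j0 : AlgebraicClosure ℚ →+* ℂ).comp (ρ k)) ∉
        toC ν' Φ (t k) then Q else 1 := fun k => hval (t k) (e.comp (ρ k))
    rw [Finset.prod_congr rfl fun k _ => h4 k, Finset.prod_ite, Finset.prod_const,
      Finset.prod_const_one, mul_one] at hPle
    exact (pow_le_pow_iff_right_of_lt_one₀ hQ0 hQ1).1 hPle
  obtain ⟨τ, hτ1, hτ2, hcard⟩ := pairs (toC_isCMType ν' hΦ) hlf (j0 : AlgebraicClosure ℚ →+* ℂ)
    hnk hnL (fun l => ⟨t l, ρ l⟩) hout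
  have hτt : ∀ k, t (τ k) = t k := by
    intro k
    by_cases h : τ k = k
    · rw [h]
    · exact congrArg Sigma.fst (hτ2 k h)
  have hτμ : ∀ k, τ k ≠ k → μ (t k) (J k) * μ (t (τ k)) (J (τ k)) = q := by
    intro k h
    have key : ∀ y y' : Σ i, (K i →+* AlgebraicClosure ℚ), y' = invL y →
        y.2 (π y.1) * y'.2 (π y'.1) = (p : AlgebraicClosure ℚ) ^ a := by
      rintro ⟨i, φ⟩ _ rfl
      change φ (π i) * (cbar φ) (π i) = _
      rw [cbar_apply, ← map_mul, hpa, map_pow, map_natCast]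
    have h1 := key _ _ (hτ2 k h)
    rw [← hρ k, ← hρ (τ k), ← map_mul, ← hjq]
    exact congrArg j h1
  have hcoord : ∀ i j x, (b i).coord j (F i x) = μ i j * (b i).coord j x := by
    intro i j x
    have h1 : ((b i).coord j).comp (F i) = μ i j • (b i).coord j := by
      apply (b i).ext
      intro l
      rw [LinearMap.comp_apply, hμ, map_smul, LinearMap.smul_apply, Module.Basis.coord_apply,
        Module.Basis.repr_self, Finsupp.single_apply]
      by_cases h : l = j
      · rw [h]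
      · rw [if_neg h, smul_zero, smul_zero]
    exact congrArg (fun f : V i →ₗ[Ω] Ω => f x) h1
  refine ⟨τ, fun k => (LinearMap.mul Ω Ω).compl₁₂ ((b (t k)).coord (J k))
    ((b (t (τ k))).coord (J (τ k))), fun k => (b (t k)).coord (J k), hτ1, hτt, hcard, ?_, ?_⟩
  · intro k x y hk
    simp only [LinearMap.compl₁₂_apply, LinearMap.mul_apply', hcoord]
    rw [← hτμ k hk]
    ring
  · intro v
    rw [hcp, prod_matching τ hτ1]
    simp only [LinearMap.compl₁₂_apply, LinearMap.mul_apply']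

end Pool.Agent.Q43.GT
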