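import Mathlib
import Pool.Agent.Q43.GT.Dir
import Pool.Agent.Q43.RP.Near
import Pool.Agent.TH170.GH.Sharp
import Pool.Agent.TH170.MF.Field

/-!
# Counting the families of types, and sharpness
-/

set_option autoImplicit false
set_option linter.unusedSectionVars false

namespace Pool.Agent.Q43.GT

open NumberField NumberField.IsCMField Module Pool.Agent.H485R3.GTC Pool.Agent.H485R3
  Pool.Agent.H204R3.CM Pool.Agent.W548.Tt Pool.Agent.TH170.LV Pool.Agent.W546.GHC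

variable {I : Type} {K : I → Type} [∀ i, Field (K i)] [∀ i, NumberField (K i)]
    [∀ i, IsCMField (K i)] {p : ℕ} [Fact p.Prime]

theorem toC_injective (ν : PadicAlgCl p ≃+* ℂ) :
    Function.Injective (fun Φ : ∀ i, Set (K i →+* PadicAlgCl p) => toC ν Φ) := by
  intro Φ Ψ h
  funext i
  ext τ
  have h1 : ((ν.symm : ℂ ≃+* PadicAlgCl p) : ℂ →+* PadicAlgCl p).comp
      (((ν : PadicAlgCl p ≃+* ℂ) : PadicAlgCl p →+* ℂ).comp τ) = τ := by
    ext x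
    exact ν.symm_apply_apply _
  have h2 : ((ν : PadicAlgCl p ≃+* ℂ) : PadicAlgCl p →+* ℂ).comp τ ∈ toC ν Φ i ↔
      ((ν : PadicAlgCl p ≃+* ℂ) : PadicAlgCl p →+* ℂ).comp τ ∈ toC ν Ψ i := by
    have h3 := congrFun h i
    simp only at h3
    rw [h3]
  change _ ∈ Φ i ↔ _ ∈ Ψ i at h2
  rwa [h1] at h2

/-- The number of the families of `p`-adic types which violate the conclusion. -/
theorem ncard_gtc (p : ℕ) [Fact p.Prime] {I : Type} [Fintype I] [Nonempty I] (K : I → Type)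
    [∀ i, Field (K i)] [∀ i, NumberField (K i)] [∀ i, IsCMField (K i)] (g N : ℕ)
    (hg : ∀ i, 2 * g ≤ finrank ℚ (K i)) (hN : ∑ i, finrank ℚ (K i) = 2 * N) (k L : ℕ) (hk : 0 < k)
    (h : 10 ^ 13 * (k * Real.log (6 * N) ^ 4) ≤ g) :
    (({Φ : ∀ i, Set (K i →+* PadicAlgCl p) | (∀ i, IsPadicType p (Φ i)) ∧
      ¬ GTCUpTo p Φ k L}.ncard : ℕ) : ℝ) ≤
      2 ^ N * ((2 * N + 1) ^ (2 * L ^ 2 + 1) *
        (1 - (1 / 2) ^ (L + 2)) ^ (2 * (g : ℝ) / ((L + 2) * (2 * L ^ 2 + 1))) +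
        Real.exp (-(g / (10 ^ 13 * (k * Real.log (6 * N)))))) := by
  obtain ⟨ν⟩ := iso p
  have hA : ({Φ : ∀ i, Set (K i →+* PadicAlgCl p) | (∀ i, IsPadicType p (Φ i)) ∧
      ¬ GTCUpTo p Φ k L}.ncard) ≤
      ({Φ : ∀ i, Set (K i →+* ℂ) | (∀ i, IsCMType (Φ i)) ∧ ¬ LevelFree Φ k L}.ncard) := by
    refine Set.ncard_le_ncard_of_injOn (fun Φ => toC ν Φ) ?_ (toC_injective ν).injOn
      (Set.toFinite _)
    rintro Φ ⟨h1, h2⟩
    exact ⟨toC_isCMType ν h1, fun h3 => h2 (gtc_of_levelFree ν h1 h3)⟩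
  obtain ⟨i₀⟩ := (inferInstance : Nonempty I)
  have hpos : 0 < finrank ℚ (K i₀) := finrank_pos
  have h2 : finrank ℚ (K i₀) ≤ 2 * N := by
    rw [← hN]
    exact Finset.single_le_sum (f := fun i => finrank ℚ (K i)) (fun _ _ => Nat.zero_le _)
      (Finset.mem_univ i₀)
  have h3 := hg i₀
  have hgN : g ≤ N := by omega
  have hN0 : 0 < N := by omega
  have hg0 : 0 < g := by
    rcases Nat.eq_zero_or_pos g with h0 | h0
    · exfalso
      rw [h0, Nat.cast_zero] at h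
      have h4 : (1 : ℝ) ≤ N := by exact_mod_cast hN0
      have h5 : 0 < Real.log (6 * N) := Real.log_pos (by linarith)
      have h6 : (0 : ℝ) < k := by exact_mod_cast hk
      have h7 : 0 < 10 ^ 13 * (k * Real.log (6 * N) ^ 4) := by positivity
      linarith
    · exact h0
  exact (Nat.cast_le.2 hA).trans
    (Pool.Agent.Q43.RP.ncard_levelFree K g N k L hg0 hg hN hgN (by omega) h)

/-- Almost all types of one field. -/
theorem ncard_gtc_one (ε : ℝ) (hε : 0 < ε) (hε1 : ε < 1) : ∃ g₀ : ℕ, ∀ g ≥ g₀, ∀ (p : ℕ)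
    [Fact p.Prime] (K : Type) [Field K] [NumberField K] [IsCMField K], finrank ℚ K = 2 * g →
    (({Φ : Set (K →+* PadicAlgCl p) | IsPadicType p Φ ∧ ¬ GTCUpTo p (fun _ : Unit => Φ)
      ⌊g / Real.log g ^ 5⌋₊ ⌊(1 - ε) * Real.logb 2 g⌋₊}.ncard : ℕ) : ℝ) ≤ ε * 2 ^ g := by
  obtain ⟨g₀, hg₀⟩ := Pool.Agent.Q43.RP.bound_near ε hε hε1
  refine ⟨g₀, fun g hg p _ K _ _ _ hE => ?_⟩
  obtain ⟨ν⟩ := iso p
  obtain ⟨h0, hk0, h14, hmain⟩ := hg₀ g hg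
  have hg1 : (1 : ℝ) ≤ g := by exact_mod_cast Nat.pos_of_ne_zero h0
  have h13 : 10 ^ 13 * (⌊g / Real.log g ^ 5⌋₊ * Real.log (6 * g) ^ 4) ≤ (g : ℝ) := by
    have : 0 ≤ (⌊g / Real.log g ^ 5⌋₊ : ℝ) * Real.log (6 * g) ^ 4 := by positivity
    linarith
  have h1 := hmain ⌊(1 - ε) * Real.logb 2 g⌋₊ (Nat.floor_le (mul_nonneg (by linarith)
    (Real.logb_nonneg (by norm_num) hg1)))
  have h2 := ncard_gtc p (fun _ : Unit => K) g g (fun _ => hE.ge)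
    (by rw [Finset.sum_const, Finset.card_univ, Fintype.card_unit, one_smul, hE])
    ⌊g / Real.log g ^ 5⌋₊ ⌊(1 - ε) * Real.logb 2 g⌋₊ (Nat.pos_of_ne_zero hk0) h13
  have h3 : ({Φ : Set (K →+* PadicAlgCl p) | IsPadicType p Φ ∧ ¬ GTCUpTo p (fun _ : Unit => Φ)
      ⌊g / Real.log g ^ 5⌋₊ ⌊(1 - ε) * Real.logb 2 g⌋₊}.ncard) ≤
      ({Φ : Unit → Set (K →+* PadicAlgCl p) | (∀ i, IsPadicType p (Φ i)) ∧ ¬ GTCUpTo p Φ
        ⌊g / Real.log g ^ 5⌋₊ ⌊(1 - ε) * Real.logb 2 g⌋₊}.ncard) := by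
    refine Set.ncard_le_ncard_of_injOn (fun Φ _ => Φ) ?_ ?_ ?_
    · rintro Φ ⟨h4, h5⟩
      exact ⟨fun _ => h4, h5⟩
    · intro Φ _ Ψ _ h
      exact congrFun h ()
    · exact Set.Finite.of_injOn (f := fun Φ => toC ν Φ) (t := Set.univ) (fun _ _ => Set.mem_univ _)
        (toC_injective ν).injOn (Set.toFinite _)
  calc _ ≤ _ := Nat.cast_le.2 h3
    _ ≤ _ := h2
    _ ≤ 2 ^ g * ε := mul_le_mul_of_nonneg_left h1 (by positivity)
    _ = ε * 2 ^ g := mul_comm _ _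

end Pool.Agent.Q43.GT
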