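import Mathlib
import Pool.Agent.Q43.GT.Cnt
import Pool.Agent.Q43.RP.Wal

/-!
# Sharpness of the bound for the level
-/

set_option autoImplicit false
set_option linter.unusedSectionVars false

namespace Pool.Agent.Q43.GT

open NumberField NumberField.IsCMField Module Pool.Agent.H485R3.GTC Pool.Agent.H485R3
  Pool.Agent.H204R3.CM Pool.Agent.W548.Tt Pool.Agent.TH170.LV Pool.Agent.W546.GHC
  Pool.Agent.H925R2 Pool.Agent.H485R3.Exact Polynomial

/-- The form given by a set of embeddings none of whose translates consists of units. -/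
theorem not_divisorialIn {p : ℕ} [Fact p.Prime] {K : Type} [Field K] [NumberField K] [IsCMField K]
    {Φ : Set (K →+* PadicAlgCl p)} (hΦ : IsPadicType p Φ) {a : ℕ} {π : K}
    (hπ : IsOrdinary p (fun _ : Unit => Φ) a (fun _ => π)) (hgen : Algebra.adjoin ℚ {π} = ⊤)
    {S : Type} [Fintype S] (y : S → (K →+* AlgebraicClosure ℚ))
    (hT : ∀ s s', y s' ≠ (y s).comp (complexConj K : K →+* K)) {ν : ℕ} (hν : 0 < ν)
    (hS : ∀ e : AlgebraicClosure ℚ →+* PadicAlgCl p, ∃ S' : Finset S, S'.card = ν ∧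
      ∀ s ∈ S', e.comp (y s) ∉ Φ) :
    ¬ DivisorialIn (fun _ : Unit => π) (p ^ a) (Fintype.card S) ν := by
  classical
  intro hdiv
  have hp : p.Prime := Fact.out
  obtain ⟨ha, hw, hord⟩ := hπ
  have halg := isAlgebraic_closure
  have hnor := normal_closure
  have hpa : π * complexConj K π = (p : K) ^ a := mul_conj_eq p π a (hw ()).2
  obtain ⟨hQ0, hQ1⟩ := norm_p_pow p a ha
  let val : S → AlgebraicClosure ℚ := fun s => y s π
  have hvint : ∀ s, IsIntegral ℤ (val s) := fun s => (hw ()).1.map (y s).toIntAlgHom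
  let x : AlgebraicClosure ℚ := ∏ s, val s
  have hxint : IsIntegral ℤ x := IsIntegral.prod _ fun s _ => hvint s
  have hx : ∀ e : AlgebraicClosure ℚ →+* PadicAlgCl p,
      ‖e x‖ ≤ ‖(p : PadicAlgCl p) ^ a‖ ^ ν := by
    intro e
    obtain ⟨S', hS1, hS2⟩ := hS e
    have h1 : ∀ s : S, ‖e (val s)‖ ≤ 1 := fun s =>
      norm_le_one_of_isIntegral p _ ((hvint s).map e.toIntAlgHom)
    have h2 : ∀ s ∈ S', ‖e (val s)‖ = ‖(p : PadicAlgCl p) ^ a‖ := by
      intro s hs
      have h3 : cbar (e.comp (y s)) ∈ Φ := by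
        by_contra h4
        exact hS2 s hs ((hΦ _).2 h4)
      have h4 := (hord () _).2 h3
      have h5 : ‖e (val s)‖ * ‖cbar (e.comp (y s)) π‖ = ‖(p : PadicAlgCl p) ^ a‖ := by
        have h6 : e (val s) * cbar (e.comp (y s)) π = (p : PadicAlgCl p) ^ a := by
          rw [cbar_apply]
          change e (y s π) * e (y s (complexConj K π)) = _
          rw [← map_mul, ← map_mul, hpa, map_pow, map_pow, map_natCast, map_natCast]
        rw [← norm_mul, h6]
      rw [h4, mul_one] at h5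
      exact h5
    simp only [x]
    rw [map_prod, norm_prod, ← Finset.prod_mul_prod_compl S', Finset.prod_congr rfl h2,
      Finset.prod_const, hS1]
    have h3 : ∏ s' ∈ S'ᶜ, ‖e (val s')‖ ≤ 1 :=
      Finset.prod_le_one (fun s _ => norm_nonneg _) fun s _ => h1 s
    exact mul_le_of_le_one_right (by positivity) h3
  have hN : IsIntegral ℤ (x / ((p ^ a : ℕ) : AlgebraicClosure ℚ) ^ ν) := by
    refine isIntegral_of_norm_le _ ?_
    intro l _ e
    rw [map_div₀, map_pow, map_natCast, norm_div, norm_pow]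
    by_cases hl : l = p
    · subst hl
      have h1 : ‖((l ^ a : ℕ) : PadicAlgCl l)‖ = ‖(l : PadicAlgCl l) ^ a‖ := by
        rw [Nat.cast_pow]
      rw [h1, div_le_one (pow_pos hQ0 _)]
      exact hx e.toRingHom
    · have h1 : ‖((p ^ a : ℕ) : PadicAlgCl l)‖ = 1 := by
        rw [Nat.cast_pow, norm_pow]
        have h4 : (p : PadicAlgCl l) = algebraMap ℚ_[l] (PadicAlgCl l) (p : ℚ_[l]) := by simp
        rw [h4, PadicAlgCl.norm_extends]
        have h5 : ‖(p : ℚ_[l])‖ = 1 := by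
          rw [Padic.norm_natCast_eq_one_iff]
          exact (Nat.coprime_primes (Fact.out : l.Prime) hp).2 hl
        rw [h5, one_pow]
      rw [h1, one_pow, div_one]
      exact norm_le_one_of_isIntegral l _ (hxint.map e.toRingHom.toIntAlgHom)
  -- the form
  let m : ℕ := Fintype.card S
  let w : Fin m ≃ S := (Fintype.equivFin S).symm
  let t : Fin m → Unit := fun _ => ()
  let V : Unit → Type := fun _ => (K →+* AlgebraicClosure ℚ) → AlgebraicClosure ℚ
  have hfinK : Finite (K →+* AlgebraicClosure ℚ) :=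
    Finite.of_injective (fun y : K →+* AlgebraicClosure ℚ => y.toRatAlgHom) fun y y' hyy => by
      ext z
      exact DFunLike.congr_fun hyy z
  let F : ∀ i, V i →ₗ[AlgebraicClosure ℚ] V i := fun i =>
    LinearMap.pi fun σ => (σ π) • LinearMap.proj σ
  have hFv : ∀ i (v : V i) σ, F i v σ = σ π * v σ := fun i v σ => rfl
  have hfdV : ∀ i, FiniteDimensional (AlgebraicClosure ℚ) (V i) := fun i => by
    simp only [V]
    infer_instance
  have hFsingle : ∀ i (σ : K →+* AlgebraicClosure ℚ),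
      F i (Pi.single σ 1) = σ π • (Pi.single σ 1 : V i) := by
    intro i σ
    funext σ'
    rw [hFv i]
    by_cases h : σ' = σ
    · subst h
      rfl
    · change σ' π * (Pi.single σ (1 : AlgebraicClosure ℚ) : V i) σ' =
        σ π * (Pi.single σ (1 : AlgebraicClosure ℚ) : V i) σ'
      rw [Pi.single_eq_of_ne h, mul_zero, mul_zero]
  have hF : ∀ i, Submodule.span (AlgebraicClosure ℚ)
      {v : V i | ∃ σ : K →+* AlgebraicClosure ℚ, F i v = σ π • v} = ⊤ := by
    intro i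
    cases nonempty_fintype (K →+* AlgebraicClosure ℚ)
    rw [← top_le_iff, ← (Pi.basisFun (AlgebraicClosure ℚ) (K →+* AlgebraicClosure ℚ)).span_eq]
    apply Submodule.span_mono
    rintro _ ⟨σ, rfl⟩
    refine ⟨σ, ?_⟩
    rw [Pi.basisFun_apply]
    exact hFsingle i σ
  let φ : MultilinearMap (AlgebraicClosure ℚ) (fun k => V (t k)) (AlgebraicClosure ℚ) :=
    (MultilinearMap.mkPiAlgebra (AlgebraicClosure ℚ) (Fin m)
      (AlgebraicClosure ℚ)).compLinearMap (fun k => LinearMap.proj (y (w k)))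
  have hφ : ∀ v, φ v = ∏ k, v k (y (w k)) := by
    intro v
    change (MultilinearMap.mkPiAlgebra (AlgebraicClosure ℚ) (Fin m) (AlgebraicClosure ℚ))
      (fun k => v k (y (w k))) = _
    rw [MultilinearMap.mkPiAlgebra_apply]
  have hprod : ∏ k, val (w k) = x := Equiv.prod_comp w val
  have hmem : φ ∈ galoisConiveau V F ((p ^ a : ℕ) : AlgebraicClosure ℚ) ν t := by
    apply Submodule.subset_span
    refine ⟨x, hN, fun v => ?_⟩
    rw [hφ, hφ, ← hprod, ← Finset.prod_mul_distrib]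
    exact Finset.prod_congr rfl fun k _ => hFv (t k) _ _
  have hspan := hdiv V F hF t hmem
  -- evaluation
  let z : ∀ k, V (t k) := fun k => Pi.single (y (w k)) 1
  have hφz : φ z = 1 := by
    rw [hφ]
    apply Finset.prod_eq_one
    intro k _
    exact Pi.single_eq_same _ _
  have hpair : ∀ s₁ s₂ : S, val s₁ * val s₂ ≠ ((p ^ a : ℕ) : AlgebraicClosure ℚ) := by
    intro s₁ s₂ hmul
    change y s₁ π * y s₂ π = _ at hmul
    have h3 : y s₁ π * y s₁ (complexConj K π) = ((p ^ a : ℕ) : AlgebraicClosure ℚ) := by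
      rw [← map_mul, hpa, map_pow, map_natCast, Nat.cast_pow]
    have h4 : y s₁ π ≠ 0 := by
      intro h0
      rw [h0, zero_mul] at h3
      exact (Nat.cast_ne_zero.2 (pow_pos hp.pos a).ne') h3.symm
    have h5 : y s₂ π = y s₁ (complexConj K π) := mul_left_cancel₀ h4 (hmul.trans h3.symm)
    have h6 : y s₂ = (y s₁).comp (complexConj K : K →+* K) := by
      have h7 : (y s₂).toRatAlgHom =
          ((y s₁).comp (complexConj K : K →+* K)).toRatAlgHom := by
        apply AlgHom.ext_of_adjoin_eq_top hgen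
        intro u hu
        rw [Set.mem_singleton_iff] at hu
        rw [hu]
        exact h5
      ext u
      exact DFunLike.congr_fun h7 u
    exact hT s₁ s₂ h6
  have hzero : ∀ ψ ∈ Submodule.span (AlgebraicClosure ℚ)
      {ψ | IsDivisorMultiple V F ((p ^ a : ℕ) : AlgebraicClosure ℚ) ν t ψ}, ψ z = 0 := by
    intro ψ hψ
    induction hψ using Submodule.span_induction with
    | mem ψ h =>
      obtain ⟨τ, B, f, hτ1, hτ2, hcard, hB, hψ⟩ := h
      obtain ⟨k, hk⟩ : ∃ k, k < τ k := by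
        by_contra hnone
        push Not at hnone
        have h1 : IsEmpty {k // τ k ≠ k} := by
          refine ⟨fun ⟨k, hk⟩ => hk (le_antisymm (hnone k) ?_)⟩
          have h2 := hnone (τ k)
          rwa [hτ1] at h2
        rw [Nat.card_eq_zero.2 (Or.inl h1)] at hcard
        omega
      rw [hψ, Finset.prod_eq_zero (Finset.mem_filter.2 ⟨Finset.mem_univ k, hk⟩), zero_mul]
      by_contra hne
      have h1 := hB k (z k) (z (τ k)) hk.ne'
      have h2 : F (t k) (z k) = val (w k) • z k := hFsingle (t k) _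
      have h3 : F (t (τ k)) (z (τ k)) = val (w (τ k)) • z (τ k) := hFsingle (t (τ k)) _
      rw [h2, h3, map_smul, map_smul, LinearMap.smul_apply, smul_eq_mul, smul_eq_mul,
        ← mul_assoc] at h1
      have h4 := mul_right_cancel₀ hne h1
      exact hpair _ _ h4
    | zero => rfl
    | add ψ₁ ψ₂ _ _ h1 h2 => rw [add_apply, h1, h2, add_zero]
    | smul c ψ _ h1 => rw [smul_apply, h1, smul_zero]
  have h1 := hzero φ hspan
  rw [hφz] at h1
  exact one_ne_zero h1

/-- **Sharpness.** For a Galois CM field the conclusion is false in level one, in a degree at most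
`log g + 2`, for every ordinary Weil number which generates the field. -/
theorem sharp {p : ℕ} [Fact p.Prime] {K : Type} [Field K] [NumberField K] [IsCMField K]
    [IsGalois ℚ K] {g : ℕ} (hK : finrank ℚ K = 2 * g) (hg : 3 ≤ g)
    {Φ : Set (K →+* PadicAlgCl p)} (hΦ : IsPadicType p Φ) {a : ℕ} {π : K}
    (hπ : IsOrdinary p (fun _ : Unit => Φ) a (fun _ => π)) (hgen : Algebra.adjoin ℚ {π} = ⊤) :
    ∃ n ≤ Nat.log 2 g + 2, ¬ DivisorialIn (fun _ : Unit => π) (p ^ a) n 1 := by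
  classical
  obtain ⟨ν⟩ := iso p
  set s := Nat.log 2 g + 2 with hs
  have hsg : s ≤ g := by
    have h1 : Nat.log 2 g < g - 1 := by
      apply Nat.log_lt_of_lt_pow (by omega)
      obtain ⟨r, rfl⟩ : ∃ r, g = r + 3 := ⟨g - 3, by omega⟩
      have h2 : ∀ r : ℕ, r + 3 < 2 ^ (r + 2) := by
        intro r
        induction r with
        | zero => norm_num
        | succ r ih =>
          rw [show r + 1 + 2 = (r + 2) + 1 by ring, pow_succ]
          omega
      exact h2 r
    omega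
  have hlt : (Pool.Agent.TH170.GH.Conjugates (E := fun _ : Unit => K)
      (toC ν (fun _ : Unit => Φ))).ncard < 2 ^ s := by
    refine (Pool.Agent.TH170.GH.ncard_conjugates_le _).trans_lt ?_
    rw [hK, hs, pow_succ]
    have := Nat.lt_pow_succ_log_self (b := 2) (by norm_num) g
    omega
  have hnot : ¬ SmallSetsOccur (toC ν (fun _ : Unit => Φ)) s := by
    intro h
    exact absurd (Pool.Agent.TH170.GH.two_pow_le (toC_isCMType ν (fun _ => hΦ)) (N := g)
      (by rw [Finset.sum_const, Finset.card_univ, Fintype.card_unit, one_smul, hK]) hsg h)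
      (not_le.2 hlt)
  unfold SmallSetsOccur at hnot
  push Not at hnot
  obtain ⟨X, hX, hX1, hX2⟩ := hnot
  have halg := isAlgebraic_closure
  let j0 : AlgebraicClosure ℚ →ₐ[ℚ] ℂ := IsAlgClosed.lift
  let θ₀ : K →+* AlgebraicClosure ℚ := ((IsAlgClosed.lift : K →ₐ[ℚ] AlgebraicClosure ℚ) :
    K →+* AlgebraicClosure ℚ)
  have hfin : X.Finite := Set.toFinite X
  have : Fintype X := hfin.fintype
  have hlift : ∀ x : X, ∃ τ : K ≃ₐ[ℚ] K,
      x.1.2 = ((j0 : AlgebraicClosure ℚ →+* ℂ).comp θ₀).comp (τ : K →+* K) := by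
    intro x
    obtain ⟨τ, hτ⟩ := ComplexEmbedding.exists_comp_symm_eq_of_comp_eq (k := ℚ)
      ((j0 : AlgebraicClosure ℚ →+* ℂ).comp θ₀) x.1.2 (Subsingleton.elim _ _)
    exact ⟨τ.symm, hτ.symm⟩
  choose τ hτ using hlift
  let y : X → (K →+* AlgebraicClosure ℚ) := fun x => θ₀.comp (τ x : K →+* K)
  have hy : ∀ x : X, x.1.2 = (j0 : AlgebraicClosure ℚ →+* ℂ).comp (y x) := hτ
  refine ⟨Fintype.card X, ?_, not_divisorialIn hΦ hπ hgen y ?_ one_pos ?_⟩
  · rw [Set.encard_eq_coe_toFinset_card, Set.toFinset_card] at hX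
    exact_mod_cast hX
  · intro x x' h
    refine hX1 x.1 x.2 ?_
    have h1 : (⟨x.1.1, ComplexEmbedding.conjugate x.1.2⟩ : Σ _ : Unit, (K →+* ℂ)) = x'.1 := by
      have h2 : ComplexEmbedding.conjugate x.1.2 = x'.1.2 := by
        rw [hy x', h, hy x]
        ext z
        change starRingEnd ℂ (((j0 : AlgebraicClosure ℚ →+* ℂ).comp (y x)) z) =
          ((j0 : AlgebraicClosure ℚ →+* ℂ).comp (y x)) (complexConj K z)
        rw [complexEmbedding_complexConj]
      exact Sigma.ext rfl (heq_of_eq h2)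
    rw [h1]
    exact x'.2
  · intro e
    obtain ⟨σ, hσ⟩ := Pool.Agent.TH170.MF.exists_comp_eq K
      ((j0 : AlgebraicClosure ℚ →+* ℂ).comp θ₀)
      (((ν : PadicAlgCl p ≃+* ℂ) : PadicAlgCl p →+* ℂ).comp (e.comp θ₀))
    obtain ⟨x, hx1, hx2⟩ := hX2 σ
    refine ⟨{⟨x, hx1⟩}, Finset.card_singleton _, fun x' hx' h => hx2 ?_⟩
    rw [Finset.mem_singleton.1 hx'] at h
    change ((ν.symm : ℂ ≃+* PadicAlgCl p) : ℂ →+* PadicAlgCl p).comp
      ((σ : ℂ →+* ℂ).comp x.2) ∈ Φ
    have h1 : ((ν.symm : ℂ ≃+* PadicAlgCl p) : ℂ →+* PadicAlgCl p).comp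
        ((σ : ℂ →+* ℂ).comp x.2) = e.comp (y ⟨x, hx1⟩) := by
      have h2 := hτ ⟨x, hx1⟩
      change x.2 = _ at h2
      rw [h2]
      ext z
      have h3 := RingHom.congr_fun hσ (τ ⟨x, hx1⟩ z)
      change σ (j0 (θ₀ (τ ⟨x, hx1⟩ z))) = ν (e (θ₀ (τ ⟨x, hx1⟩ z))) at h3
      change ν.symm (σ (j0 (θ₀ (τ ⟨x, hx1⟩ z)))) = e (θ₀ (τ ⟨x, hx1⟩ z))
      rw [h3]
      exact ν.symm_apply_apply _
    rw [h1]
    exact h

/-- **Sharpness for the degree.** For a multiquadratic CM field and at least about one half of the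
`p`-adic types there are exotic Tate classes in degree `g`. -/
theorem sharp_degree {p : ℕ} [Fact p.Prime] {K : Type} [Field K] [NumberField K] [IsCMField K]
    [IsGalois ℚ K] {g : ℕ} (hK : finrank ℚ K = 2 * g) (hsq : ∀ σ : K ≃ₐ[ℚ] K, σ * σ = 1)
    (hg : 2 ≤ g) :
    (2 : ℝ) ^ g * (1 / 2 - 1 / Real.sqrt (8 * g)) ≤
      (({Φ : Set (K →+* PadicAlgCl p) | IsPadicType p Φ ∧
        ∀ (a : ℕ) (π : K), IsOrdinary p (fun _ : Unit => Φ) a (fun _ => π) →
          Algebra.adjoin ℚ {π} = ⊤ →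
          ¬ DivisorialIn (fun _ : Unit => π) (p ^ a) g (g / 2)}.ncard : ℕ) : ℝ) +
        2 * g * 2 ^ (g / 2) := by
  classical
  have halg := isAlgebraic_closure
  let θ₀ : K →+* AlgebraicClosure ℚ := ((IsAlgClosed.lift : K →ₐ[ℚ] AlgebraicClosure ℚ) :
    K →+* AlgebraicClosure ℚ)
  let τ₀ : K →+* PadicAlgCl p := ((IsAlgClosed.lift : K →ₐ[ℚ] PadicAlgCl p) : K →+* PadicAlgCl p)
  let inst : CommGroup (K ≃ₐ[ℚ] K) :=
    { (inferInstance : Group (K ≃ₐ[ℚ] K)) with
      mul_comm := by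
        intro a b
        have ha : a⁻¹ = a := inv_eq_of_mul_eq_one_left (hsq a)
        have hb : b⁻¹ = b := inv_eq_of_mul_eq_one_left (hsq b)
        have hab : (a * b)⁻¹ = a * b := inv_eq_of_mul_eq_one_left (hsq (a * b))
        rw [← hab, mul_inv_rev, ha, hb] }
  have hcard : Fintype.card (K ≃ₐ[ℚ] K) = 2 * g := by
    rw [← Nat.card_eq_fintype_card, IsGalois.card_aut_eq_finrank, hK]
  obtain ⟨ν⟩ := iso p
  let emb' : (K ≃ₐ[ℚ] K) → (K →+* PadicAlgCl p) := fun σ => τ₀.comp (σ : K →+* K)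
  have hinj : Function.Injective emb' := by
    intro σ σ' h
    ext x
    apply τ₀.injective
    exact RingHom.congr_fun h x
  have hsurj : Function.Surjective emb' := by
    intro φ
    obtain ⟨σ, hσ⟩ := (Pool.Agent.Q2.RP.emb_bijective
      (((ν : PadicAlgCl p ≃+* ℂ) : PadicAlgCl p →+* ℂ).comp τ₀)).2
      (((ν : PadicAlgCl p ≃+* ℂ) : PadicAlgCl p →+* ℂ).comp φ)
    refine ⟨σ, ?_⟩
    ext x
    apply ν.injective
    exact RingHom.congr_fun hσ x
  have hcbar : ∀ σ : K ≃ₐ[ℚ] K, cbar (emb' σ) = emb' (Pool.Agent.Q2.RP.cc K * σ) := by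
    intro σ
    rw [mul_comm]
    rfl
  refine Pool.Agent.Q43.RP.core_half (Pool.Agent.Q2.RP.cc K) g hsq Pool.Agent.Q2.RP.cc_ne hcard hg
    emb' ⟨hinj, hsurj⟩ _ ?_
  rintro Φ T hT hTH - ⟨χ, hχ, h0⟩
  have hΦ : IsPadicType p Φ := by
    intro φ
    obtain ⟨σ, rfl⟩ := hsurj φ
    rw [hcbar, ← hT, ← hT]
    exact Pool.Agent.W548.Sh.mem_Halves.1 hTH σ
  refine ⟨hΦ, fun a π hπ hgen => ?_⟩
  obtain ⟨m, hm⟩ := Pool.Agent.Q2.RP.even_g (Pool.Agent.Q2.RP.cc K) hsq χ hχ g hcard hg
  have hker : Fintype.card χ.ker = g := by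
    rw [← Nat.card_eq_fintype_card]
    exact Pool.Agent.Q2.RP.card_ker (Pool.Agent.Q2.RP.cc K) χ hχ _ hcard
  rw [← hker]
  have key := not_divisorialIn hΦ hπ hgen (S := χ.ker) (fun s => θ₀.comp ((s : K ≃ₐ[ℚ] K) : K →+* K))
    (ν := Fintype.card χ.ker / 2) ?_ (by rw [hker]; omega) ?_
  · exact key
  · intro s s' h
    have h1 : (s' : K ≃ₐ[ℚ] K) = (s : K ≃ₐ[ℚ] K) * Pool.Agent.Q2.RP.cc K := by
      ext x
      apply θ₀.injective
      exact RingHom.congr_fun h x
    have h2 := congrArg χ h1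
    rw [map_mul, hχ, MonoidHom.mem_ker.1 s.2, MonoidHom.mem_ker.1 s'.2] at h2
    exact absurd h2 (by decide)
  · intro e
    obtain ⟨h, hh⟩ := hsurj (e.comp θ₀)
    refine ⟨Finset.univ.filter (fun s : χ.ker => ¬ (h * (s : K ≃ₐ[ℚ] K) ∈ T)), ?_, ?_⟩
    · have h3 := Pool.Agent.Q2.RP.balanced (Pool.Agent.Q2.RP.cc K) hTH χ hχ h0 h
      have h4 : ∀ s : χ.ker, (if h * (s : K ≃ₐ[ℚ] K) ∈ T then (1 : ℤ) else -1) =
          1 - 2 * (if ¬ (h * (s : K ≃ₐ[ℚ] K) ∈ T) then (1 : ℤ) else 0) := by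
        intro s
        by_cases hs : h * (s : K ≃ₐ[ℚ] K) ∈ T
        · rw [if_pos hs, if_neg (not_not.2 hs)]
          norm_num
        · rw [if_neg hs, if_pos hs]
          norm_num
      rw [Finset.sum_congr rfl fun s _ => h4 s, Finset.sum_sub_distrib, ← Finset.mul_sum,
        Finset.sum_boole, Finset.sum_const, Finset.card_univ, nsmul_eq_mul, mul_one] at h3
      omega
    · intro s hs hcon
      have hs' := (Finset.mem_filter.1 hs).2
      apply hs'
      rw [hT]
      have h5 : emb' (h * (s : K ≃ₐ[ℚ] K)) =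
          e.comp (θ₀.comp ((s : K ≃ₐ[ℚ] K) : K →+* K)) := by
        ext x
        exact RingHom.congr_fun hh ((s : K ≃ₐ[ℚ] K) x)
      rw [h5]
      exact hcon

end Pool.Agent.Q43.GT
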